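import Pool.Agent.Lib.MP_688fd0_co.TF.Iface3
import Pool.Agent.Lib.MP_688fd0_co.TE.H19.Suml

/-!
# Theorem F: RHOF (elementary facts on the reweighting)
-/

namespace Pool.Agent.Lib.MP_688fd0_co.TF.H94

open Pool.Agent.Lib.MP_688fd0_co.TE

universe u v w

theorem rho_nonneg {p q : ℝ} (hp : 0 ≤ p) (hq : 0 ≤ q) : 0 ≤ rho p q :=
  le_min (div_nonneg hp hq) (div_nonneg hq hp)

theorem rho_le_one {p q : ℝ} (hp : 0 ≤ p) (hq : 0 ≤ q) : rho p q ≤ 1 := by
  unfold rho
  rcases le_total p q with h | h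
  · exact (min_le_left _ _).trans (div_le_one_of_le₀ h hq)
  · exact (min_le_right _ _).trans (div_le_one_of_le₀ h hp)

theorem rho_mul_right {p q : ℝ} (hp : 0 ≤ p) (hq : 0 ≤ q) : rho p q * q ≤ p := by
  rcases hq.eq_or_lt with h | h
  · rw [← h, mul_zero]; exact hp
  · exact (mul_le_mul_of_nonneg_right (min_le_left _ _) hq).trans (div_mul_cancel₀ p h.ne').le

theorem rho_mul_left {p q : ℝ} (hp : 0 ≤ p) (hq : 0 ≤ q) : rho p q * p ≤ q := by
  rcases hp.eq_or_lt with h | h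
  · rw [← h, mul_zero]; exact hq
  · exact (mul_le_mul_of_nonneg_right (min_le_right _ _) hp).trans (div_mul_cancel₀ q h.ne').le

set_option linter.unusedSectionVars false

section

variable {V : Type u} {Val : Type v} [Fintype V] [Fintype Val] [DecidableEq V] {a : ℕ}
  (M : LM V Val a) (jm : ℕ) (x y : V)

theorem ka_nonneg (u : V) : 0 ≤ M.ka jm x u := TE.H19.fk_nonneg M _ _ _ _

theorem kc_nonneg (v : V) : 0 ≤ M.kc jm v y := TE.H19.fk_nonneg M _ _ _ _

theorem kb_nonneg (v : V) : 0 ≤ M.kb jm x v :=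
  Finset.sum_nonneg fun _ _ => Finset.sum_nonneg fun _ _ =>
    mul_nonneg (mul_nonneg (TE.H19.fk_nonneg M _ _ _ _) (M.hk0 _ _ _)) (ind_nonneg _)

theorem mw_facts (s : V × Val) : 0 ≤ M.mw jm x y s ∧ M.mw jm x y s ≤ 1 ∧
      M.mw jm x y s * M.kc jm (M.ex s.1 s.2) y ≤ M.kb jm x (M.ex s.1 s.2) ∧
      M.mw jm x y s * M.kc jm (M.ex s.1 s.2) y ≤ 2 * M.ka jm x s.1 ∧
      M.mw jm x y s * M.ka jm x s.1 ≤ 2 * M.kc jm (M.ex s.1 s.2) y := by
  have ha := ka_nonneg M jm x s.1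
  have hb := kb_nonneg M jm x (M.ex s.1 s.2)
  have hc := kc_nonneg M jm y (M.ex s.1 s.2)
  unfold LM.mw
  generalize M.ka jm x s.1 = α at *
  generalize M.kb jm x (M.ex s.1 s.2) = β at *
  generalize M.kc jm (M.ex s.1 s.2) y = γ at *
  have r0 := rho_nonneg hb hc
  have r1 := rho_le_one hb hc
  have r2 := rho_mul_right hb hc
  have r3 := rho_mul_left hb hc
  by_cases h : α ≤ 2 * β ∧ β ≤ 2 * α
  · rw [ind_of h, mul_one]
    refine ⟨r0, r1, r2, r2.trans h.2, ?_⟩
    calc rho β γ * α ≤ rho β γ * (2 * β) := mul_le_mul_of_nonneg_left h.1 r0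
      _ = 2 * (rho β γ * β) := by ring
      _ ≤ 2 * γ := by linarith
  · rw [ind_not h]
    simp only [mul_zero, zero_mul]
    exact ⟨le_refl _, zero_le_one, hb, by linarith, by linarith⟩

theorem gm_facts (z : List (V × Val)) : 0 ≤ M.gm jm x y z ∧ M.gm jm x y z ≤ 1 := by
  unfold LM.gm
  cases z[jm]? with
  | none => exact ⟨le_refl _, zero_le_one⟩
  | some s => exact ⟨(mw_facts M jm x y s).1, (mw_facts M jm x y s).2.1⟩

theorem pr_facts (z : List (V × Val)) : 0 ≤ M.pr jm x y z ∧ M.pr jm x y z ≤ M.pw 0 x z y := by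
  have h := gm_facts M jm x y z
  have hp := TE.H19.pw_nonneg M z 0 x y
  unfold LM.pr
  exact ⟨mul_nonneg hp h.1, mul_le_of_le_one_right hp h.2⟩

theorem gm_append (l l' : List (V × Val)) (s : V × Val) (hl : l.length = jm) :
    M.gm jm x y (l ++ s :: l') = M.mw jm x y s := by
  have h : (l ++ s :: l')[jm]? = some s := by
    rw [List.getElem?_append_right (by omega), hl, Nat.sub_self, List.getElem?_cons_zero]
  unfold LM.gm
  rw [h]
  rfl

theorem pr_split (hj : jm < a) (F : List (V × Val) → ℝ) :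
    sumL a (fun z => M.pr jm x y z * F z) =
      ∑ s : V × Val, sumL jm (fun l => sumL (a - 1 - jm) (fun l' =>
        M.pw 0 x l s.1 * M.kap jm s.1 s.2 * M.pw (jm + 1) (M.ex s.1 s.2) l' y *
          M.mw jm x y s * F (l ++ s :: l'))) := by
  have e1 : sumL a (fun z => M.pr jm x y z * F z) =
      sumL (jm + (a - 1 - jm + 1)) (fun z => M.pr jm x y z * F z) := by
    rw [show jm + (a - 1 - jm + 1) = a by omega]
  rw [e1, TE.H19.sumL_append]
  have e2 : sumL jm (fun l => sumL (a - 1 - jm + 1)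
      (fun l' => M.pr jm x y (l ++ l') * F (l ++ l'))) =
      sumL jm (fun l => ∑ s : V × Val, sumL (a - 1 - jm) (fun l' =>
        M.pw 0 x l s.1 * M.kap jm s.1 s.2 * M.pw (jm + 1) (M.ex s.1 s.2) l' y *
          M.mw jm x y s * F (l ++ s :: l'))) := by
    refine TE.H19.sumL_congr _ _ _ fun l hl => ?_
    show ∑ s : V × Val, sumL (a - 1 - jm)
      (fun l' => M.pr jm x y (l ++ s :: l') * F (l ++ s :: l')) = _
    refine Finset.sum_congr rfl fun s _ => TE.H19.sumL_congr _ _ _ fun l' _ => ?_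
    unfold LM.pr
    rw [gm_append M jm x y l l' s hl, TE.H19.pw_append, hl, Nat.zero_add]
  rw [e2, TE.H19.sumL_sum]

end

/-- RHOF. -/
theorem rhof : RHOF_S.{u, v} := by
  intro V Val _ _ _ a M jm hj x y
  exact ⟨mw_facts M jm x y, gm_facts M jm x y, pr_facts M jm x y, pr_split M jm x y hj⟩

end Pool.Agent.Lib.MP_688fd0_co.TF.H94
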