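import Pool.Agent.Lib.MP_688fd0_co.TF.Iface2
import Pool.Agent.Lib.MP_688fd0_co.TE.H41.Rup

/-!
# Theorem F, module KERF: the kernels of the pattern
-/

set_option linter.unusedSectionVars false

namespace Pool.Agent.Lib.MP_688fd0_co.TF.H94

open Pool.Agent.Lib.MP_688fd0_co.TE
open Pool.Agent.Lib.MP_688fd0_co.TE.H41

universe u

section

variable {G : Type u} [Group G] [Fintype G] [DecidableEq G]

theorem Kn_add (cc : ℕ → Matrix G G ℝ) (i m n : ℕ) :
    Kn cc i (m + n) = Kn cc i m * Kn cc (i + m) n := by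
  induction n with
  | zero => exact (Matrix.mul_one _).symm
  | succ n ih =>
    change Kn cc i (m + n) * cc (i + (m + n) + 1) =
      Kn cc i m * (Kn cc (i + m) n * cc (i + m + n + 1))
    rw [ih, Matrix.mul_assoc, add_assoc i m n]

theorem Kn_one (cc : ℕ → Matrix G G ℝ) (i : ℕ) : Kn cc i 1 = cc (i + 1) := by
  change (1 : Matrix G G ℝ) * cc (i + 0 + 1) = _
  rw [Matrix.one_mul, add_zero]

theorem Kn_three (cc : ℕ → Matrix G G ℝ) (i : ℕ) :
    Kn cc i 3 = cc (i + 1) * cc (i + 2) * cc (i + 3) := by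
  change (1 : Matrix G G ℝ) * cc (i + 0 + 1) * cc (i + 1 + 1) * cc (i + 2 + 1) = _
  rw [Matrix.one_mul]

theorem le_mul_left {M N : Matrix G G ℝ} {a : ℝ} (hM : ∀ x y, M x y ≤ a) (hN : DS N) (x y : G) :
    (M * N) x y ≤ a := (ds_sup hN hM x y).2

theorem le_mul_right {M N : Matrix G G ℝ} {a : ℝ} (hM : DS M) (hN : ∀ x y, N x y ≤ a) (x y : G) :
    (M * N) x y ≤ a := (ds_sup hM hN x y).1

theorem ds_le_one {M : Matrix G G ℝ} (hM : DS M) (x y : G) : M x y ≤ 1 := by
  rw [← hM.row x]
  exact Finset.single_le_sum (f := fun z => M x z) (fun z _ => hM.nn x z) (Finset.mem_univ y)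

/-- multiplication by a doubly stochastic matrix on the right contracts the rows -/
theorem rn_contr_right {M D : Matrix G G ℝ} (hD : DS D) (x : G) : rn (M * D) x ≤ rn M x := by
  have h1 : ∀ v, ((M * D) x v) ^ 2 ≤ ∑ z, M x z ^ 2 * D z v := by
    intro v
    rw [Matrix.mul_apply]
    have h2 := Finset.sum_sq_le_sum_mul_sum_of_sq_le_mul (Finset.univ : Finset G)
      (r := fun z => M x z * D z v) (f := fun z => D z v) (g := fun z => M x z ^ 2 * D z v)
      (fun z _ => hD.nn _ _) (fun z _ => mul_nonneg (sq_nonneg _) (hD.nn _ _))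
      (fun z _ => le_of_eq (by ring))
    rw [hD.col, one_mul] at h2
    exact h2
  calc rn (M * D) x ≤ ∑ v, ∑ z, M x z ^ 2 * D z v := Finset.sum_le_sum (fun v _ => h1 v)
    _ = ∑ z, M x z ^ 2 := by
        rw [Finset.sum_comm]
        refine Finset.sum_congr rfl (fun z _ => ?_)
        rw [← Finset.mul_sum, hD.row, mul_one]
    _ = rn M x := rfl

/-- rows of a doubly stochastic matrix with bounded entries -/
theorem rn_le_of_bound {M : Matrix G G ℝ} (hM : DS M) {a : ℝ} (h : ∀ x y, M x y ≤ a) (x : G) :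
    rn M x ≤ a := by
  calc rn M x = ∑ v, M x v ^ 2 := rfl
    _ ≤ ∑ v, a * M x v := by
        refine Finset.sum_le_sum (fun v _ => ?_)
        rw [sq]
        exact mul_le_mul_of_nonneg_right (h x v) (hM.nn x v)
    _ = a := by rw [← Finset.mul_sum, hM.row, mul_one]

theorem cF_or (B C : Finset G) (τ : Bool) (p : ℕ) :
    cF B C τ p = UM B ∨ cF B C τ p = WM B C τ := by
  unfold cF
  split
  · exact Or.inr rfl
  · exact Or.inl rfl

theorem cF_tr {B C : Finset G} (hB : Sy B) (hC : Sy C) (τ : Bool) (p : ℕ) :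
    (cF B C τ p).transpose = cF B C τ p := by
  rcases cF_or B C τ p with h | h
  · rw [h]; exact um_tr B hB.inv
  · rw [h]; exact wm_tr hB hC τ

theorem cF_congr (B C : Finset G) (τ : Bool) {p p' : ℕ} (h : p % 3 = 2 ↔ p' % 3 = 2) :
    cF B C τ p = cF B C τ p' := by
  unfold cF
  by_cases hp : p % 3 = 2
  · rw [if_pos hp, if_pos (h.1 hp)]
  · rw [if_neg hp, if_neg (fun h' => hp (h.2 h'))]

end

theorem kerf : KERF_S.{u} := by
  intro G _ _ _ c τ
  have hB := c.hB
  have hC := c.hC
  have hb0 : (0 : ℝ) < c.b := by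
    unfold Ctx.b
    exact_mod_cast hB.ne.card_pos
  have hb1 : (1 : ℝ) ≤ c.b := by
    unfold Ctx.b
    exact_mod_cast hB.ne.card_pos
  have hccor : ∀ p, c.cc τ p = UM c.B ∨ c.cc τ p = WM c.B c.C τ := fun p => cF_or _ _ _ _
  have hccDS : ∀ p, DS (c.cc τ p) := by
    intro p
    rcases hccor p with h | h
    · rw [h]; exact um_ds _ hB.ne
    · rw [h]; exact wm_ds hB hC τ
  have hccInv : ∀ p, Inv (c.cc τ p) := by
    intro p
    rcases hccor p with h | h
    · rw [h]; exact um_inv _
    · rw [h]; exact wm_inv _ _ τ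
  have hDS : ∀ i n, DS (c.K τ i n) := by
    intro i n
    induction n with
    | zero => exact ds_one
    | succ n ih => exact ds_mul ih (hccDS _)
  have hInv : ∀ i n, Inv (c.K τ i n) := by
    intro i n
    induction n with
    | zero => exact inv_one
    | succ n ih => exact inv_mul ih (hccInv _)
  have hadd : ∀ i m n, c.K τ i (m + n) = c.K τ i m * c.K τ (i + m) n :=
    fun i m n => Kn_add _ i m n
  have hone : ∀ i, c.K τ i 1 = c.cc τ (i + 1) := fun i => Kn_one _ i
  have hper : ∀ i n, c.K τ (i + 3) n = c.K τ i n := by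
    intro i n
    induction n with
    | zero => rfl
    | succ n ih =>
      change c.K τ (i + 3) n * c.cc τ (i + 3 + n + 1) = c.K τ i n * c.cc τ (i + n + 1)
      rw [ih]
      congr 1
      exact cF_congr _ _ _ (by omega)
  have htr : ∀ n i i', (i + i' + n) % 3 = 0 → (c.K τ i n).transpose = c.K τ i' n := by
    intro n
    induction n with
    | zero =>
      intro i i' _
      exact Matrix.transpose_one
    | succ n ih =>
      intro i i' h
      have e1 : c.K τ i (n + 1) = c.K τ i n * c.cc τ (i + n + 1) := rfl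
      have e2 : c.K τ i' (n + 1) = c.cc τ (i' + 1) * c.K τ (i' + 1) n := by
        rw [add_comm n 1, hadd, hone]
      rw [e1, e2, Matrix.transpose_mul, ih i (i' + 1) (by omega)]
      congr 1
      have e3 : (c.cc τ (i + n + 1)).transpose = c.cc τ (i + n + 1) := cF_tr hB hC τ _
      rw [e3]
      exact cF_congr _ _ _ (by omega)
  -- blocks
  have hblock : ∀ i, i % 3 = 0 → c.K τ i 3 = SM c.B c.C τ := by
    intro i hi
    change Kn (c.cc τ) i 3 = _
    rw [Kn_three]
    unfold Ctx.cc cF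
    rw [if_neg (by omega), if_pos (by omega), if_neg (by omega)]
    rfl
  have hpow : ∀ i, i % 3 = 0 → ∀ a, c.K τ i (3 * a) = SM c.B c.C τ ^ a := by
    intro i hi a
    induction a with
    | zero => exact (pow_zero _).symm
    | succ a ih =>
      rw [show 3 * (a + 1) = 3 * a + 3 by ring, hadd, ih, hblock _ (by omega), pow_succ]
  -- bounds
  have hbetale : ∀ p, (p % 3 ≠ 2 ∨ τ = false) → ∀ x y, c.cc τ p x y ≤ 1 / c.b := by
    intro p hp x y
    have : c.cc τ p = UM c.B := by
      unfold Ctx.cc cF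
      by_cases h : p % 3 = 2
      · rcases hp with hp | hp
        · exact absurd h hp
        · rw [if_pos h, hp]
          rfl
      · rw [if_neg h]
    rw [this]
    exact um_le _ x y
  have hsmall : ∀ i n x y, n ≠ 0 → (n ≠ 1 ∨ i % 3 ≠ 1 ∨ τ = false) →
      c.K τ i n x y ≤ 1 / c.b := by
    intro i n x y hn h
    by_cases h1 : n = 1
    · subst h1
      rw [hone]
      refine hbetale _ ?_ x y
      rcases h with h | h | h
      · exact absurd rfl h
      · left; omega
      · right; exact h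
    · obtain ⟨m, rfl⟩ : ∃ m, n = 1 + (1 + m) := ⟨n - 2, by omega⟩
      rw [hadd, hadd, hone, hone]
      by_cases h2 : (i + 1) % 3 = 2
      · refine le_mul_right (hccDS _) (le_mul_left (hbetale _ (Or.inl (by omega))) (hDS _ _)) x y
      · exact le_mul_left (hbetale _ (Or.inl h2)) (ds_mul (hccDS _) (hDS _ _)) x y
  have hsd := sm_ds hB hC τ
  have hsi := sm_inv c.B c.C τ
  have hst := sm_tr hB hC τ
  have hSle : ∀ m x y, (SM c.B c.C τ ^ m) x y ≤ c.qq τ (m / 2) := by
    intro m x y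
    rcases Nat.even_or_odd m with ⟨j, hj⟩ | ⟨j, hj⟩
    · have e : m / 2 = j := by omega
      rw [e, hj, ← two_mul]
      exact q_sup hsi hst j x y
    · have e : m / 2 = j := by omega
      rw [e, hj]
      exact q_sup_odd hsd hsi hst j x y
  have hanti : ∀ i j, i ≤ j → c.qq τ j ≤ c.qq τ i := fun i j h => q_anti hsd hsi hst h
  -- the aligned decomposition
  have hdec : ∀ i n, 2 ≤ n → ∃ r m s, r ≤ 2 ∧ s ≤ 2 ∧ n = r + (3 * m + s) ∧
      c.K τ i n = c.K τ i r * (SM c.B c.C τ ^ m * c.K τ (i + r + 3 * m) s) := by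
    intro i n hn
    refine ⟨(3 - i % 3) % 3, (n - (3 - i % 3) % 3) / 3, (n - (3 - i % 3) % 3) % 3, by omega,
      by omega, by omega, ?_⟩
    have e : n = (3 - i % 3) % 3 + (3 * ((n - (3 - i % 3) % 3) / 3) +
      (n - (3 - i % 3) % 3) % 3) := by omega
    conv_lhs => rw [e]
    rw [hadd, hadd, hpow _ (by omega)]
  have hgs : ∀ i n x y, c.K τ i n x y ≤ c.gs τ i n := by
    intro i n x y
    unfold Ctx.gs
    by_cases h10 : 10 ≤ n
    · rw [if_pos h10]
      obtain ⟨r, m, s, hr, hs, hn, hK⟩ := hdec i n (by omega)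
      rw [hK]
      refine le_mul_right (hDS _ _) (le_mul_left (fun x y => ?_) (hDS _ _)) x y
      exact (hSle m x y).trans (hanti _ _ (by omega))
    · rw [if_neg h10]
      by_cases h : n = 0 ∨ (n = 1 ∧ i % 3 = 1 ∧ τ = true)
      · rw [if_pos h]
        exact ds_le_one (hDS _ _) x y
      · rw [if_neg h]
        refine hsmall i n x y (fun h0 => h (Or.inl h0)) ?_
        by_contra h1
        push Not at h1
        refine h (Or.inr ⟨h1.1, h1.2.1, ?_⟩)
        simpa using h1.2.2
  have hg2 : ∀ i n x, ∑ y, c.K τ i n x y ^ 2 ≤ c.g2 τ i n := by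
    intro i n x
    change rn (c.K τ i n) x ≤ _
    unfold Ctx.g2
    by_cases h7 : 7 ≤ n
    · rw [if_pos h7]
      obtain ⟨r, m, s, hr, hs, hn, hK⟩ := hdec i n (by omega)
      rw [hK]
      have e1 : rn (c.K τ i r * (SM c.B c.C τ ^ m * c.K τ (i + r + 3 * m) s)) x ≤
          rn (SM c.B c.C τ ^ m * c.K τ (i + r + 3 * m) s) 1 :=
        rn_contr (hDS _ _) (inv_mul (inv_pow hsi m) (hInv _ _)) x
      have e2 : rn (SM c.B c.C τ ^ m * c.K τ (i + r + 3 * m) s) 1 ≤ rn (SM c.B c.C τ ^ m) 1 :=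
        rn_contr_right (hDS _ _) 1
      have e3 : rn (SM c.B c.C τ ^ m) 1 = c.qq τ m := rn_pow hst m 1
      rw [e3] at e2
      exact (e1.trans e2).trans (hanti _ _ (by omega))
    · rw [if_neg h7]
      by_cases h : n = 0 ∨ (n = 1 ∧ i % 3 = 1 ∧ τ = true)
      · rw [if_pos h]
        exact rn_le_of_bound (hDS _ _) (ds_le_one (hDS _ _)) x
      · rw [if_neg h]
        refine rn_le_of_bound (hDS _ _) (fun x y => ?_) x
        refine hsmall i n x y (fun h0 => h (Or.inl h0)) ?_
        by_contra h1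
        push Not at h1
        refine h (Or.inr ⟨h1.1, h1.2.1, ?_⟩)
        simpa using h1.2.2
  refine ⟨fun i n => ⟨hDS i n, hInv i n⟩, hadd, hper, fun i i' n h => htr n i i' h,
    fun a => hpow 0 rfl a, hgs, hsmall, hg2, ?_, hccor, fun p => ⟨hccDS p, hccInv p⟩, hone⟩
  intro i n y
  obtain ⟨i', hi'⟩ : ∃ i', (i + i' + n) % 3 = 0 := ⟨2 * (i + n), by omega⟩
  have e1 := hg2 i' n y
  have e2 : c.g2 τ i' n = c.g2 τ i n := by
    unfold Ctx.g2
    by_cases h7 : 7 ≤ n
    · rw [if_pos h7, if_pos h7]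
    · rw [if_neg h7, if_neg h7]
      have e3 : (n = 0 ∨ (n = 1 ∧ i' % 3 = 1 ∧ τ = true)) ↔
          (n = 0 ∨ (n = 1 ∧ i % 3 = 1 ∧ τ = true)) := by
        constructor
        · rintro (h | ⟨h, h', h''⟩)
          · exact Or.inl h
          · exact Or.inr ⟨h, by omega, h''⟩
        · rintro (h | ⟨h, h', h''⟩)
          · exact Or.inl h
          · exact Or.inr ⟨h, by omega, h''⟩
      simp only [e3]
  rw [e2, ← htr n i i' hi'] at e1
  simpa only [Matrix.transpose_apply] using e1

end Pool.Agent.Lib.MP_688fd0_co.TF.H94
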