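import Pool.Agent.Lib.MP_688fd0_co.TF.Iface3
import Pool.Agent.Lib.MP_688fd0_co.TE.H69.SumL

/-!
# Theorem F: LOWAF (Chebyshev for the weights `g`)
-/

namespace Pool.Agent.Lib.MP_688fd0_co.TF.H94

open Pool.Agent.Lib.MP_688fd0_co.TE
open Pool.Agent.Lib.MP_688fd0_co.TE.H69 (sumL_mono sumL_congr sumL_mul sumL_mul_right sumL_add
  sumL_nonneg Ex_sumL Ex_mul_left pw_nonneg pw_ne)

universe u v w

/-- LOWAF. -/
theorem lowaf (hEXX : EXX_S.{u, v}) (hPFG : PFG_S.{u, v}) (hBASIC : BASIC_S.{max u v, 0}) :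
    LOWAF_S.{u, v} := by
  intro V Val _ _ _ a M x y g AA d S hpos hg hd hS hS1
  obtain ⟨hpr, hx1, hx2⟩ := hEXX V Val a M
  set m : ℝ := sumL a (fun z => M.pw 0 x z y * g z * ind (AA z)) with hm
  have hc0 : ∀ z, 0 ≤ M.pw 0 x z y := fun z => pw_nonneg M 0 x y z
  have hcg : ∀ z, 0 ≤ M.pw 0 x z y * g z := fun z => mul_nonneg (hc0 z) (hg z).1
  have hmf : m ≤ sumL a (fun z => M.pw 0 x z y * g z) := by
    refine sumL_mono _ fun z _ => ?_
    have := mul_le_mul_of_nonneg_left (ind_le_one (AA z)) (hcg z)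
    rwa [mul_one] at this
  have hmean : Ex M.law (fun ω => sumL a (fun z =>
      M.pw 0 x z y * g z * M.xw ω 0 z * ind (AA z))) = m := by
    rw [Ex_sumL]
    refine sumL_congr _ fun z hz => ?_
    have e1 : (fun ω => M.pw 0 x z y * g z * M.xw ω 0 z * ind (AA z)) =
        fun ω => (M.pw 0 x z y * g z * ind (AA z)) * M.xw ω 0 z := by
      funext ω; ring
    rw [e1, Ex_mul_left]
    by_cases h0 : M.pw 0 x z y = 0
    · rw [h0]; ring
    · rw [hx1 z 0 (by omega) (pw_ne M hpos h0), mul_one]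
  -- the bound for the inner sum
  have hinner : ∀ z, z.length = a →
      sumL a (fun z' => M.pw 0 x z' y * g z' * ind (AA z') * M.pf z z') ≤ m + S := by
    intro z hz
    have h2 : sumL a (fun z' => M.pw 0 x z' y * g z' * ind (AA z') * M.pf z z') ≤
        sumL a (fun z' => M.pw 0 x z' y * g z' * ind (AA z') +
          M.pw 0 x z' y * (M.pg z z' - 1)) := by
      refine sumL_mono _ fun z' _ => ?_
      obtain ⟨-, k1, k2⟩ := hPFG V Val a M z z'
      have k3 := hcg z'
      have k4 := ind_nonneg (AA z')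
      have k5 := ind_le_one (AA z')
      set t := M.pg z z'
      have k6 : M.pw 0 x z' y * g z' * ind (AA z') * M.pf z z' ≤
          M.pw 0 x z' y * g z' * ind (AA z') * t :=
        mul_le_mul_of_nonneg_left k1 (mul_nonneg k3 k4)
      have k8 : M.pw 0 x z' y * g z' * ind (AA z') ≤ M.pw 0 x z' y := by
        have h1 : M.pw 0 x z' y * g z' * ind (AA z') ≤ M.pw 0 x z' y * g z' :=
          mul_le_of_le_one_right k3 k5
        exact h1.trans (mul_le_of_le_one_right (hc0 z') (hg z').2)
      have k7 : M.pw 0 x z' y * g z' * ind (AA z') * (t - 1) ≤ M.pw 0 x z' y * (t - 1) :=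
        mul_le_mul_of_nonneg_right k8 (by linarith)
      linarith
    refine h2.trans ?_
    rw [sumL_add]
    have h3 := hS1 z hz
    linarith
  have hsq : Ex M.law (fun ω => (sumL a (fun z =>
      M.pw 0 x z y * g z * M.xw ω 0 z * ind (AA z))) ^ 2) ≤
      m ^ 2 + sumL a (fun z => M.pw 0 x z y * g z) * S := by
    have e1 : (fun ω : Fld a V Val =>
        (sumL a (fun z => M.pw 0 x z y * g z * M.xw ω 0 z * ind (AA z))) ^ 2) =
        fun ω => sumL a (fun z => sumL a (fun z' =>
          (M.pw 0 x z y * g z * ind (AA z) * (M.pw 0 x z' y * g z' * ind (AA z'))) *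
            (M.xw ω 0 z * M.xw ω 0 z'))) := by
      funext ω
      rw [sq, ← sumL_mul_right]
      refine sumL_congr _ fun z _ => ?_
      rw [← sumL_mul]
      exact sumL_congr _ fun z' _ => by ring
    rw [e1, Ex_sumL]
    have e2 : ∀ z : List (V × Val), z.length = a →
        Ex M.law (fun ω => sumL a (fun z' =>
          (M.pw 0 x z y * g z * ind (AA z) * (M.pw 0 x z' y * g z' * ind (AA z'))) *
            (M.xw ω 0 z * M.xw ω 0 z'))) ≤ (M.pw 0 x z y * g z * ind (AA z)) * (m + S) := by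
      intro z hz
      rw [Ex_sumL]
      refine le_trans ?_ (mul_le_mul_of_nonneg_left (hinner z hz)
        (mul_nonneg (hcg z) (ind_nonneg _)))
      rw [← sumL_mul]
      refine (sumL_congr _ fun z' hz' => ?_).le
      rw [Ex_mul_left]
      by_cases h0 : M.pw 0 x z y = 0
      · rw [h0]; ring
      by_cases h0' : M.pw 0 x z' y = 0
      · rw [h0']; ring
      have h1 := hx2 [] z [] z' (by simp [hz]) (by rw [hz, hz'])
        (by simpa using pw_ne M hpos h0) (pw_ne M hpos h0')
      simp only [List.nil_append, List.append_nil, List.length_nil] at h1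
      rw [h1]; ring
    refine (sumL_mono _ e2).trans ?_
    rw [sumL_mul_right]
    have := mul_le_mul_of_nonneg_right hmf hS
    nlinarith
  obtain ⟨-, -, -, hcheb, -, -⟩ := hBASIC (Fld a V Val) M.law hpr
  have h1 := hcheb (fun ω => sumL a (fun z => M.pw 0 x z y * g z * M.xw ω 0 z * ind (AA z))) d hd
  rw [hmean] at h1
  refine h1.trans ?_
  rw [div_le_div_iff_of_pos_right (by positivity)]
  linarith

end Pool.Agent.Lib.MP_688fd0_co.TF.H94
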