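import Pool.Agent.Lib.MP_688fd0_co.TF.Iface2
import Pool.Agent.Lib.MP_688fd0_co.TE.H41.Rup

/-!
# Theorem F, module QQF: the numbers `q(j)`
-/

set_option linter.unusedSectionVars false

namespace Pool.Agent.Lib.MP_688fd0_co.TF.H94

open Pool.Agent.Lib.MP_688fd0_co.TE
open Pool.Agent.Lib.MP_688fd0_co.TE.H41

universe u

/-- a positive sequence with nonincreasing ratios: products -/
theorem lc_mul {q : ℕ → ℝ} (hpos : ∀ j, 0 < q j) (hlc : ∀ j, q (j + 1) ^ 2 ≤ q j * q (j + 2)) :
    ∀ i j, i ≤ j → q (i + 1) * q j ≤ q i * q (j + 1) := by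
  intro i j hij
  induction hij with
  | refl => rw [mul_comm]
  | @step j hij ih =>
    have h1 := hlc j
    have h2 := hpos j
    have h3 := hpos (j + 1)
    have h4 := hpos i
    have h5 := hpos (i + 1)
    have h6 : q (i + 1) * q (j + 1) * q j ≤ q i * q (j + 1) ^ 2 := by nlinarith
    have h7 : q i * q (j + 1) ^ 2 ≤ q i * (q j * q (j + 2)) :=
      mul_le_mul_of_nonneg_left h1 h4.le
    have h8 : q (i + 1) * q (j + 1) * q j ≤ q i * q (j + 2) * q j := by nlinarith
    exact le_of_mul_le_mul_right h8 h2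

/-- `q i * q j ≤ q 1 * q (i + j - 1)` -/
theorem lc_one {q : ℕ → ℝ} (hpos : ∀ j, 0 < q j) (hlc : ∀ j, q (j + 1) ^ 2 ≤ q j * q (j + 2)) :
    ∀ i j, q (i + 1) * q (j + 1) ≤ q 1 * q (i + j + 1) := by
  have key : ∀ i j, i ≤ j → q (i + 1) * q (j + 1) ≤ q 1 * q (i + j + 1) := by
    intro i
    induction i with
    | zero => intro j _; simp
    | succ i ih =>
      intro j hj
      have h1 := lc_mul hpos hlc (i + 1) (j + 1) (by omega)
      have h2 := ih (j + 1) (by omega)
      have e : i + 1 + j + 1 = i + (j + 1) + 1 := by ring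
      rw [e]
      exact h1.trans h2
  intro i j
  rcases le_total i j with h | h
  · exact key i j h
  · have := key j i h
    rw [mul_comm, add_comm i j]
    exact this

theorem qqf : QQF_S.{u} := by
  intro G _ _ _ c τ
  have hB := c.hB
  have hC := c.hC
  have hsd := sm_ds hB hC τ
  have hsi := sm_inv c.B c.C τ
  have hst := sm_tr hB hC τ
  have hpos : ∀ j, 0 < c.qq τ j := fun j => q_pos hsd hst j
  have hlow : ∀ j, 1 / (Fintype.card G : ℝ) ≤ c.qq τ j := fun j => q_low hsd hst j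
  have hanti : ∀ i j, i ≤ j → c.qq τ j ≤ c.qq τ i := fun i j h => q_anti hsd hsi hst h
  have hlc : ∀ j, c.qq τ (j + 1) ^ 2 ≤ c.qq τ j * c.qq τ (j + 2) := fun j => q_lc hst j
  have hrat : ∀ j, 1 ≤ j → c.qq τ (j - 1) ≤
      Real.exp (Real.log (Fintype.card G) / j) * c.qq τ j := fun j h => q_ratio hsd hst j h
  have hb0 : (0 : ℝ) < c.b := by
    unfold Ctx.b
    exact_mod_cast hB.ne.card_pos
  have hb1 : (1 : ℝ) ≤ c.b := by
    unfold Ctx.b
    exact_mod_cast hB.ne.card_pos
  have hn0 : (0 : ℝ) < Fintype.card G := by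
    have : 0 < Fintype.card G := Fintype.card_pos
    exact_mod_cast this
  have hn1 : (1 : ℝ) ≤ Fintype.card G := by
    have : 1 ≤ Fintype.card G := Fintype.card_pos
    exact_mod_cast this
  have hL0 : 0 ≤ Real.log (Fintype.card G) := Real.log_nonneg hn1
  have hSb : ∀ x y, SM c.B c.C τ x y ≤ 1 / c.b := by
    intro x y
    unfold SM
    rw [Matrix.mul_assoc]
    exact (ds_sup (ds_mul (wm_ds hB hC τ) (um_ds _ hB.ne)) (um_le c.B) x y).2
  have hqb : ∀ j, 1 ≤ j → c.qq τ j ≤ 1 / c.b := by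
    intro j hj
    change (SM c.B c.C τ ^ (2 * j)) 1 1 ≤ _
    rw [show 2 * j = (2 * j - 1) + 1 by omega, pow_succ]
    exact (ds_sup (ds_pow hsd _) hSb 1 1).1
  have hk0 : (0 : ℝ) ≤ c.k := Nat.cast_nonneg _
  have hr0' : (0 : ℝ) ≤ c.r0 := Nat.cast_nonneg _
  have hr3 : (3 : ℝ) ≤ c.r0 + 1 := by
    have := c.hr1
    have : (2 : ℝ) ≤ c.r0 := by exact_mod_cast this
    linarith
  have hkr := c.hkr
  have hk1 : 300 * ((c.r0 : ℝ) + 1) * (Real.log (Fintype.card G) + 1) ≤ c.k := by
    refine le_trans ?_ hkr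
    have : 300 * ((c.r0 : ℝ) + 1) ≤ 100 * ((c.r0 : ℝ) + 1) ^ 2 := by nlinarith
    exact mul_le_mul_of_nonneg_right this (by linarith)
  have hk2 : 300 * ((c.r0 : ℝ) + 1) ≤ c.k := by
    refine le_trans ?_ hk1
    have h0 : (0 : ℝ) ≤ 300 * ((c.r0 : ℝ) + 1) := by positivity
    nlinarith [mul_nonneg h0 hL0]
  have hkn : 300 * (c.r0 + 1) ≤ c.k := by exact_mod_cast hk2
  have hk1' : 1 ≤ c.k := by omega
  have hlogk : Real.log (Fintype.card G) ≤ c.k := by
    have h0 : (1 : ℝ) ≤ 300 * ((c.r0 : ℝ) + 1) := by nlinarith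
    have : 1 * (Real.log (Fintype.card G) + 1) ≤
        300 * ((c.r0 : ℝ) + 1) * (Real.log (Fintype.card G) + 1) :=
      mul_le_mul_of_nonneg_right h0 (by linarith)
    linarith
  -- the bound for small shifts
  have hshift : ∀ j u, c.k ≤ j → j ≤ c.k + 1 → u ≤ 20 * (c.r0 + 1) →
      c.qq τ (j - u) ≤ 2 * c.qq τ j := by
    intro j u hj1 hj2 hu
    -- every step costs at most `exp (a)`
    set a : ℝ := Real.log (Fintype.card G) / (280 * ((c.r0 : ℝ) + 1) *
      (Real.log (Fintype.card G) + 1)) with ha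
    have hden : 0 < 280 * ((c.r0 : ℝ) + 1) * (Real.log (Fintype.card G) + 1) := by positivity
    have ha0 : 0 ≤ a := div_nonneg hL0 hden.le
    have hstep : ∀ v, v ≤ u → c.qq τ (j - v) ≤ Real.exp (v * a) * c.qq τ j := by
      intro v
      induction v with
      | zero => intro _; simp
      | succ v ih =>
        intro hv
        have h1 := ih (by omega)
        have h2 := hrat (j - v) (by omega)
        have h3 : Real.log (Fintype.card G) / ((j - v : ℕ) : ℝ) ≤ a := by
          rw [ha]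
          refine div_le_div_of_nonneg_left hL0 hden ?_
          have h4 : ((j - v : ℕ) : ℝ) = (j : ℝ) - v := by
            rw [Nat.cast_sub (by omega)]
          rw [h4]
          have h5 : (c.k : ℝ) ≤ j := by exact_mod_cast hj1
          have h6 : (v : ℝ) ≤ 20 * ((c.r0 : ℝ) + 1) := by
            have : v ≤ 20 * (c.r0 + 1) := by omega
            exact_mod_cast this
          have h7 : 20 * ((c.r0 : ℝ) + 1) ≤
              20 * ((c.r0 : ℝ) + 1) * (Real.log (Fintype.card G) + 1) := by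
            have h0 : (0 : ℝ) ≤ 20 * ((c.r0 : ℝ) + 1) := by positivity
            nlinarith [mul_nonneg h0 hL0]
          linarith
        have e : j - (v + 1) = (j - v) - 1 := by omega
        rw [e]
        calc c.qq τ (j - v - 1) ≤ Real.exp (Real.log (Fintype.card G) / ((j - v : ℕ) : ℝ)) *
              c.qq τ (j - v) := h2
          _ ≤ Real.exp a * c.qq τ (j - v) :=
              mul_le_mul_of_nonneg_right (Real.exp_le_exp.mpr h3) (hpos _).le
          _ ≤ Real.exp a * (Real.exp (v * a) * c.qq τ j) :=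
              mul_le_mul_of_nonneg_left h1 (Real.exp_pos _).le
          _ = Real.exp (((v + 1 : ℕ) : ℝ) * a) * c.qq τ j := by
              rw [← mul_assoc, ← Real.exp_add]
              congr 2
              push_cast
              ring
    refine (hstep u le_rfl).trans (mul_le_mul_of_nonneg_right ?_ (hpos j).le)
    have hua : (u : ℝ) * a ≤ 1 / 14 := by
      have hu' : (u : ℝ) ≤ 20 * ((c.r0 : ℝ) + 1) := by exact_mod_cast hu
      calc (u : ℝ) * a ≤ 20 * ((c.r0 : ℝ) + 1) * a := mul_le_mul_of_nonneg_right hu' ha0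
        _ ≤ 1 / 14 := by
            rw [ha, ← mul_div_assoc, div_le_iff₀ hden]
            have h0 : (0 : ℝ) ≤ 20 * ((c.r0 : ℝ) + 1) := by positivity
            nlinarith
    have h2 : Real.exp (1 / 14 : ℝ) ≤ 2 := by
      have h3 : Real.exp (1 / 14 : ℝ) ≤ Real.exp (1 / 2 : ℝ) :=
        Real.exp_le_exp.mpr (by norm_num)
      have h4 : Real.exp (1 / 2 : ℝ) ^ 2 = Real.exp 1 := by
        rw [← Real.exp_nat_mul]
        congr 1
        norm_num
      have h5 := Real.exp_one_lt_d9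
      nlinarith [Real.exp_pos (1 / 2 : ℝ)]
    exact (Real.exp_le_exp.mpr hua).trans h2
  refine ⟨?_, hpos, hlow, hanti, hqb, hlc, hrat, ?_, hshift, ?_, ?_, ?_⟩
  · change (SM c.B c.C τ ^ (2 * 0)) 1 1 = 1
    simp
  · -- products
    intro i j hi hj hij
    obtain ⟨i, rfl⟩ : ∃ m, i = m + 1 := ⟨i - 1, by omega⟩
    obtain ⟨j, rfl⟩ : ∃ m, j = m + 1 := ⟨j - 1, by omega⟩
    have h1 := lc_one hpos hlc i j
    have h2 := hqb 1 le_rfl
    have h3 := hrat (i + 1 + (j + 1)) (by omega)
    have e : i + 1 + (j + 1) - 1 = i + j + 1 := by omega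
    rw [e] at h3
    -- the exponential
    set N : ℕ := i + 1 + (j + 1) with hN
    have hNr : (c.r0 : ℝ) ≤ N := by exact_mod_cast hij
    have hr0p : (0 : ℝ) < c.r0 := by linarith
    have h4 : Real.exp (Real.log (Fintype.card G) / (N : ℝ)) ≤ c.b ^ (1 / 8 : ℝ) := by
      have h5 : 8 * Real.log (Fintype.card G) ≤ c.r0 * Real.log c.b := by
        have h6 := Real.log_le_log (by positivity) c.hr0
        rw [Real.log_pow, Real.log_pow] at h6
        exact_mod_cast h6
      have h7 : Real.log (Fintype.card G) / (N : ℝ) ≤ (1 / 8 : ℝ) * Real.log c.b := by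
        rw [div_le_iff₀ (by linarith)]
        have hlb : 0 ≤ Real.log c.b := Real.log_nonneg hb1
        nlinarith [mul_le_mul_of_nonneg_right hNr hlb]
      calc Real.exp (Real.log (Fintype.card G) / (N : ℝ)) ≤
            Real.exp ((1 / 8 : ℝ) * Real.log c.b) := Real.exp_le_exp.mpr h7
        _ = c.b ^ (1 / 8 : ℝ) := by
            rw [Real.rpow_def_of_pos hb0, mul_comm]
    have h8 : c.qq τ (i + j + 1) ≤ c.b ^ (1 / 8 : ℝ) * c.qq τ N :=
      h3.trans (mul_le_mul_of_nonneg_right h4 (hpos _).le)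
    calc c.qq τ (i + 1) * c.qq τ (j + 1) ≤ c.qq τ 1 * c.qq τ (i + j + 1) := h1
      _ ≤ 1 / c.b * (c.b ^ (1 / 8 : ℝ) * c.qq τ N) :=
          mul_le_mul h2 h8 (hpos _).le (by positivity)
      _ = (c.b ^ (1 / 8 : ℝ) / c.b) * c.qq τ N := by ring
      _ ≤ (1 / c.b ^ (1 / 2 : ℝ)) * c.qq τ N := by
          refine mul_le_mul_of_nonneg_right ?_ (hpos _).le
          rw [div_le_div_iff₀ hb0 (by positivity), one_mul, ← Real.rpow_add hb0]
          calc c.b ^ ((1 / 8 : ℝ) + 1 / 2) ≤ c.b ^ (1 : ℝ) :=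
                Real.rpow_le_rpow_of_exponent_le hb1 (by norm_num)
            _ = c.b := Real.rpow_one _
      _ = c.qq τ N / c.b ^ (1 / 2 : ℝ) := by ring
  · have := hshift (c.k + 1) 1 (by omega) le_rfl (by omega)
    exact this
  · intro x y j
    exact q_sup hsi hst j x y
  · intro g
    have hk2' : (1 : ℝ) ≤ c.k := by exact_mod_cast hk1'
    obtain ⟨a1, a2, -, -⟩ := rup G c.B c.C hB hC τ c.k hk1' hlogk
    obtain ⟨b1, b2, -, -⟩ := rup G c.B c.C hB hC τ (c.k + 1) (by omega)
      (by push_cast; linarith)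
    have e1 : Real.log (Fintype.card G) / (c.k : ℝ) ≤ 1 := by
      rw [div_le_one (by linarith)]
      exact hlogk
    have e2 : Real.log (Fintype.card G) / ((c.k + 1 : ℕ) : ℝ) ≤ 1 := by
      rw [div_le_one (by push_cast; linarith)]
      push_cast
      linarith
    refine ⟨?_, ?_, ?_, ?_⟩
    · linarith [(a1 g).2]
    · linarith [(a2 g).2]
    · linarith [(b1 g).2]
    · linarith [(b2 g).2]

end Pool.Agent.Lib.MP_688fd0_co.TF.H94
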